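import Pool.Agent.H38.NP.Graphs

/-!
The unweighted red-blue s-t cut problem in undirected graphs.
-/

namespace Pool.Agent.Run7.h465.ST

open Pool.Agent.H38.NP

/-- An instance of the undirected red-blue s-t cut problem: the number `n` of vertices (the vertices
are `0, ..., n - 1`), the two vertices `s` and `t`, the list of the red edges and the list of the
blue edges (an edge is given by the pair of its ends, in any order; a repetition is a parallel
edge), and the bounds `r` and `b`. -/
structure Inst where
  /-- the number of vertices -/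
  n : ℕ
  /-- the first terminal -/
  s : ℕ
  /-- the second terminal -/
  t : ℕ
  /-- the red edges -/
  red : List (ℕ × ℕ)
  /-- the blue edges -/
  blue : List (ℕ × ℕ)
  /-- the bound for the red edges of the cut -/
  r : ℕ
  /-- the bound for the blue edges of the cut -/
  b : ℕ

/-- An instance is encoded as the tuple of its components. -/
instance : Enc Inst := ⟨fun I => enc (I.n, I.s, I.t, I.red, I.blue, I.r, I.b)⟩

/-- The ends of all edges are vertices, and `s`, `t` are distinct vertices. Loops and parallel
edges are allowed. -/
def IsGraph (I : Inst) : Prop :=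
  (I.s < I.n ∧ I.t < I.n ∧ I.s ≠ I.t) ∧ ∀ e ∈ I.red ++ I.blue, e.1 < I.n ∧ e.2 < I.n

/-- Moreover the graph is simple: there are no loops, and no two edges (of the same or of different
colours) have the same pair of ends. -/
def IsSimple (I : Inst) : Prop :=
  IsGraph I ∧ (∀ e ∈ I.red ++ I.blue, e.1 ≠ e.2) ∧
    ((I.red ++ I.blue).map fun e => s(e.1, e.2)).Nodup

/-- The edges of the list `A` in the cut `δ(X)`, i.e. those with exactly one end in `X`, with
multiplicity. -/
def cutEdges (X : Finset ℕ) (A : List (ℕ × ℕ)) : List (ℕ × ℕ) :=
  A.filter fun e => decide ((e.1 ∈ X ∧ e.2 ∉ X) ∨ (e.1 ∉ X ∧ e.2 ∈ X))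

/-- There is a set `X` of vertices with `s ∈ X` and `t ∉ X` such that the cut `δ(X)` contains at
most `r` red edges and at most `b` blue edges. -/
def HasCut (I : Inst) : Prop :=
  ∃ X : Finset ℕ, X ⊆ Finset.range I.n ∧ I.s ∈ X ∧ I.t ∉ X ∧
    (cutEdges X I.red).length ≤ I.r ∧ (cutEdges X I.blue).length ≤ I.b

end Pool.Agent.Run7.h465.ST
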