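import Pool.Agent.Run7.h465.ST.Mem

/-!
NP-hardness of the undirected red-blue s-t cut problem on simple graphs, by a reduction from
independent set.
-/

namespace Pool.Agent.Run7.h465.ST

open Pool.Agent.H38.NP

/-- the pairs in `[0, n) × [0, m)` that satisfy `q` -/
def prs (n m : ℕ) (q : ℕ → ℕ → Bool) : List (ℕ × ℕ) :=
  (List.range n).flatMap fun u => ((List.range m).filter fun i => q u i).map fun i => (u, i)

theorem mem_prs {n m q} {e : ℕ × ℕ} : e ∈ prs n m q ↔ e.1 < n ∧ e.2 < m ∧ q e.1 e.2 = true := by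
  obtain ⟨u, i⟩ := e
  simp [prs]

theorem nodup_prs (n m q) : (prs n m q).Nodup := by
  unfold prs
  rw [List.nodup_flatMap]
  refine ⟨fun u _ => ?_, ?_⟩
  · exact ((List.nodup_range.filter _)).map fun a b h => (Prod.mk.inj h).2
  · refine List.nodup_range.imp fun {a b} hab => ?_
    rintro ⟨x, y⟩ h1 h2
    simp only [List.mem_map, List.mem_filter, Prod.mk.injEq] at h1 h2
    obtain ⟨_, _, h1, _⟩ := h1
    obtain ⟨_, _, h2, _⟩ := h2
    exact hab (h1.trans h2.symm)

theorem countP_prs (n m q) (p : ℕ × ℕ → Bool) : (prs n m q).countP p =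
    ((Finset.range n ×ˢ Finset.range m).filter fun e => q e.1 e.2 = true ∧ p e = true).card := by
  rw [List.countP_eq_length_filter, ← List.toFinset_card_of_nodup ((nodup_prs n m q).filter _)]
  congr 1
  ext e
  simp only [List.mem_toFinset, List.mem_filter, mem_prs, Finset.mem_filter, Finset.mem_product,
    Finset.mem_range]
  tauto

theorem PT.prs {α : Type} [Enc α] {n m : α → ℕ} {q : α → ℕ → ℕ → Bool} (hn : PT n) (hm : PT m)
    (h : PT fun p : α × ℕ × ℕ => q p.1 p.2.1 p.2.2) : PT fun a => prs (n a) (m a) (q a) := by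
  unfold ST.prs
  refine PT.flatMap (PT.map (by fun_prop) (PT.filter (f := fun (p : α × ℕ) v => q p.1 p.2 v) ?_
    (by fun_prop))) (by fun_prop)
  exact h.comp (g := fun p : (α × ℕ) × ℕ => (p.1.1, p.1.2, p.2)) (by fun_prop)

/-- the complement graph -/
def ad (E : List (ℕ × ℕ)) (u i : ℕ) : Bool :=
  decide (u ≠ i) && (!(decide ((u, i) ∈ E)) && !(decide ((i, u) ∈ E)))

theorem ad_symm (E : List (ℕ × ℕ)) (u i : ℕ) : ad E u i = ad E i u := by
  rw [Bool.eq_iff_iff]
  simp only [ad, Bool.and_eq_true, decide_eq_true_eq, Bool.not_eq_true', decide_eq_false_iff_not]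
  tauto

theorem ad_iff {E : List (ℕ × ℕ)} {u i : ℕ} : ad E u i = true ↔ u ≠ i ∧ (u, i) ∉ E ∧ (i, u) ∉ E := by
  simp [ad]

/-- the slots that do not belong to an edge of the complement graph -/
def sl (n : ℕ) (E : List (ℕ × ℕ)) (u i : ℕ) : Bool := !(decide (i < n) && ad E u i)

/-- the red edges -/
def redE (n : ℕ) : List (ℕ × ℕ) := (List.range n).map fun u => (0, u + 2)

/-- the name of the subdivision vertex of a slot -/
def wv (n : ℕ) (e : ℕ × ℕ) : ℕ := n + 2 + (e.1 * (2 * n) + e.2)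

/-- the blue edges -/
def blueE (n : ℕ) (E : List (ℕ × ℕ)) : List (ℕ × ℕ) :=
  (prs n n fun u i => decide (u < i) && ad E u i).map (fun e => (e.1 + 2, e.2 + 2)) ++
  ((prs n (2 * n) (sl n E)).map (fun e => (e.1 + 2, wv n e)) ++
  (prs n (2 * n) (sl n E)).map (fun e => (1, wv n e)))

/-- the reduction -/
def red (p : ℕ × List (ℕ × ℕ) × ℕ) : Inst :=
  ofTup (p.1 + 2 + p.1 * (2 * p.1), 0, 1, redE p.1, blueE p.1 p.2.1, p.1 - p.2.2,
    p.2.2 * (2 * p.1 + 1 - p.2.2))

theorem pt_red : PT red := by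
  unfold red redE blueE
  refine PT.ofTup (PT.mk (by fun_prop) (PT.mk (by fun_prop) (PT.mk (by fun_prop)
    (PT.mk (by fun_prop) (PT.mk ?_ (by fun_prop))))))
  refine PT.append (PT.map (by fun_prop) (PT.prs (by fun_prop) (by fun_prop) ?_))
    (PT.append (PT.map ?_ (PT.prs (by fun_prop) (by fun_prop) ?_))
    (PT.map ?_ (PT.prs (by fun_prop) (by fun_prop) ?_)))
  · unfold ad; fun_prop
  · unfold wv; fun_prop
  · unfold sl ad; fun_prop
  · unfold wv; fun_prop
  · unfold sl ad; fun_prop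

theorem lt_of_mem {n : ℕ} {E : List (ℕ × ℕ)} {e : ℕ × ℕ} (he : e ∈ redE n ++ blueE n E) :
    e.1 < e.2 ∧ e.2 < n + 2 + n * (2 * n) := by
  simp only [redE, blueE, List.mem_append, List.mem_map, List.mem_range, mem_prs] at he
  rcases he with ⟨u, hu, rfl⟩ | ⟨⟨u, i⟩, ⟨hu, hi, h⟩, rfl⟩ | ⟨⟨u, i⟩, ⟨hu, hi, h⟩, rfl⟩ |
    ⟨⟨u, i⟩, ⟨hu, hi, h⟩, rfl⟩
  · simp only; omega
  · simp only [Bool.and_eq_true, decide_eq_true_eq] at h
    simp only at hu hi ⊢; omega
  · simp only [wv] at hu hi ⊢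
    have : u * (2 * n) + i < n * (2 * n) := by nlinarith
    omega
  · simp only [wv] at hu hi ⊢
    have : u * (2 * n) + i < n * (2 * n) := by nlinarith
    omega

theorem wv_inj {n : ℕ} {e f : ℕ × ℕ} (he : e.2 < 2 * n) (hf : f.2 < 2 * n) (h : wv n e = wv n f) :
    e = f := by
  obtain ⟨u, i⟩ := e
  obtain ⟨v, j⟩ := f
  simp only [wv] at he hf h
  have h1 : u * (2 * n) + i = v * (2 * n) + j := by omega
  have hu : (u * (2 * n) + i) / (2 * n) = u := by
    rw [Nat.add_comm, Nat.add_mul_div_right _ _ (by omega), Nat.div_eq_of_lt he, Nat.zero_add]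
  have hv : (v * (2 * n) + j) / (2 * n) = v := by
    rw [Nat.add_comm, Nat.add_mul_div_right _ _ (by omega), Nat.div_eq_of_lt hf, Nat.zero_add]
  have : u = v := by rw [← hu, ← hv, h1]
  subst this
  rw [show i = j by omega]

theorem nodup_all (n : ℕ) (E : List (ℕ × ℕ)) : (redE n ++ blueE n E).Nodup := by
  have h1 : (redE n).Nodup := List.nodup_range.map fun a b h => by
    simpa using h
  have h2 : ((prs n n fun u i => decide (u < i) && ad E u i).map
      (fun e => (e.1 + 2, e.2 + 2))).Nodup := (nodup_prs _ _ _).map fun a b h => by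
    simp only [Prod.mk.injEq, Nat.add_right_cancel_iff] at h
    exact Prod.ext h.1 h.2
  have h3 : ((prs n (2 * n) (sl n E)).map (fun e => (e.1 + 2, wv n e))).Nodup :=
    (nodup_prs _ _ _).map_on fun a ha b hb h =>
      wv_inj (mem_prs.1 ha).2.1 (mem_prs.1 hb).2.1 (Prod.mk.inj h).2
  have h4 : ((prs n (2 * n) (sl n E)).map (fun e => ((1 : ℕ), wv n e))).Nodup :=
    (nodup_prs _ _ _).map_on fun a ha b hb h =>
      wv_inj (mem_prs.1 ha).2.1 (mem_prs.1 hb).2.1 (Prod.mk.inj h).2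
  refine List.Nodup.append h1 (List.Nodup.append h2 (List.Nodup.append h3 h4 ?_) ?_) ?_
  · rintro ⟨a, b⟩ ha hb
    simp only [List.mem_map, Prod.mk.injEq] at ha hb
    obtain ⟨e, _, ha, -⟩ := ha
    obtain ⟨f, _, hb, -⟩ := hb
    omega
  · rintro ⟨a, b⟩ ha hb
    simp only [List.mem_map, List.mem_append, Prod.mk.injEq, mem_prs, wv] at ha hb
    obtain ⟨e, h, ha, ha'⟩ := ha
    rcases hb with ⟨f, _, hb, hb'⟩ | ⟨f, _, hb, hb'⟩ <;> omega
  · rintro ⟨a, b⟩ ha hb
    simp only [redE, List.mem_map, List.mem_append, Prod.mk.injEq, mem_prs, wv, blueE] at ha hb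
    obtain ⟨e, h, ha, ha'⟩ := ha
    rcases hb with ⟨f, _, hb, hb'⟩ | ⟨f, _, hb, hb'⟩ | ⟨f, _, hb, hb'⟩ <;> omega

theorem simple_red (p : ℕ × List (ℕ × ℕ) × ℕ) : IsSimple (red p) := by
  obtain ⟨n, E, k⟩ := p
  refine ⟨⟨⟨?_, ?_, ?_⟩, fun e he => ?_⟩, fun e he => ?_, ?_⟩
  · simp only [red, ofTup]; omega
  · simp only [red, ofTup]; omega
  · simp [red, ofTup]
  · have h : e.1 < e.2 ∧ e.2 < n + 2 + n * (2 * n) := lt_of_mem he
    change e.1 < n + 2 + n * (2 * n) ∧ e.2 < n + 2 + n * (2 * n)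
    omega
  · exact (lt_of_mem he).1.ne
  · refine (nodup_all n E).map_on fun a ha b hb h => ?_
    have h1 := (lt_of_mem ha).1
    have h2 := (lt_of_mem hb).1
    rw [Sym2.eq_iff] at h
    refine Prod.ext ?_ ?_ <;> omega

theorem cut_map (X : Finset ℕ) (l : List (ℕ × ℕ)) (f : ℕ × ℕ → ℕ × ℕ) :
    (cutEdges X (l.map f)).length =
      l.countP fun e => decide (((f e).1 ∈ X ∧ (f e).2 ∉ X) ∨ ((f e).1 ∉ X ∧ (f e).2 ∈ X)) := by
  rw [cutEdges, ← List.countP_eq_length_filter, List.countP_map]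
  rfl

theorem cut_append (X : Finset ℕ) (l l' : List (ℕ × ℕ)) :
    (cutEdges X (l ++ l')).length = (cutEdges X l).length + (cutEdges X l').length := by
  simp [cutEdges]

/-- ordered pairs of adjacent vertices of the complement graph -/
def arc (n : ℕ) (E : List (ℕ × ℕ)) : Finset (ℕ × ℕ) :=
  (Finset.range n ×ˢ Finset.range n).filter fun e => ad E e.1 e.2 = true

theorem mem_arc {n : ℕ} {E : List (ℕ × ℕ)} {e : ℕ × ℕ} :
    e ∈ arc n E ↔ e.1 < n ∧ e.2 < n ∧ ad E e.1 e.2 = true := by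
  simp [arc, and_assoc]

/-- the slots -/
def slots (n : ℕ) (E : List (ℕ × ℕ)) : Finset (ℕ × ℕ) :=
  (Finset.range n ×ˢ Finset.range (2 * n)).filter fun e => sl n E e.1 e.2 = true

theorem mem_slots {n : ℕ} {E : List (ℕ × ℕ)} {e : ℕ × ℕ} :
    e ∈ slots n E ↔ e.1 < n ∧ e.2 < 2 * n ∧ ¬ (e.2 < n ∧ ad E e.1 e.2 = true) := by
  simp only [slots, Finset.mem_filter, Finset.mem_product, Finset.mem_range, sl,
    Bool.not_eq_true', Bool.and_eq_false_iff, decide_eq_false_iff_not, and_assoc]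
  by_cases h : ad E e.1 e.2 = true <;> simp [h]

/-- the blue edges that join two vertices of the given graph -/
theorem blue_one (n : ℕ) (E : List (ℕ × ℕ)) (X : Finset ℕ) :
    (cutEdges X ((prs n n fun u i => decide (u < i) && ad E u i).map
      (fun e => (e.1 + 2, e.2 + 2)))).length =
    ((arc n E).filter fun e => e.1 + 2 ∈ X ∧ e.2 + 2 ∉ X).card := by
  rw [cut_map, countP_prs]
  refine Finset.card_bij (fun e _ => if e.1 + 2 ∈ X then e else (e.2, e.1)) ?_ ?_ ?_
  · rintro ⟨u, i⟩ h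
    simp only [Finset.mem_filter, Finset.mem_product, Finset.mem_range, Bool.and_eq_true,
      decide_eq_true_eq] at h
    obtain ⟨⟨hu, hi⟩, ⟨hlt, had⟩, h⟩ := h
    by_cases hX : u + 2 ∈ X
    · simp only [hX, if_true, Finset.mem_filter, mem_arc]
      refine ⟨⟨hu, hi, had⟩, trivial, ?_⟩
      tauto
    · simp only [hX, if_false, Finset.mem_filter, mem_arc]
      refine ⟨⟨hi, hu, by rw [ad_symm]; exact had⟩, ?_, not_false⟩
      tauto
  · rintro ⟨u, i⟩ h ⟨v, j⟩ h' e
    simp only [Finset.mem_filter, Finset.mem_product, Finset.mem_range, Bool.and_eq_true,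
      decide_eq_true_eq] at h h'
    obtain ⟨_, ⟨h1, _⟩, _⟩ := h
    obtain ⟨_, ⟨h2, _⟩, _⟩ := h'
    dsimp only at e
    split_ifs at e <;> simp only [Prod.mk.injEq] at e ⊢ <;> omega
  · rintro ⟨u, i⟩ h
    simp only [Finset.mem_filter, mem_arc] at h
    obtain ⟨⟨hu, hi, had⟩, hX, hX'⟩ := h
    have hne : u ≠ i := (ad_iff.1 had).1
    rcases lt_or_gt_of_ne hne with hlt | hlt
    · refine ⟨(u, i), ?_, by simp [hX]⟩
      simp only [Finset.mem_filter, Finset.mem_product, Finset.mem_range, Bool.and_eq_true,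
        decide_eq_true_eq]
      exact ⟨⟨hu, hi⟩, ⟨hlt, had⟩, Or.inl ⟨hX, hX'⟩⟩
    · refine ⟨(i, u), ?_, by simp [hX']⟩
      simp only [Finset.mem_filter, Finset.mem_product, Finset.mem_range, Bool.and_eq_true,
        decide_eq_true_eq]
      exact ⟨⟨hi, hu⟩, ⟨hlt, by rw [ad_symm]; exact had⟩, Or.inr ⟨hX', hX⟩⟩

theorem blue_two (n : ℕ) (E : List (ℕ × ℕ)) (X : Finset ℕ) :
    (cutEdges X ((prs n (2 * n) (sl n E)).map (fun e => (e.1 + 2, wv n e)))).length =
    ((slots n E).filter fun e => (e.1 + 2 ∈ X ∧ wv n e ∉ X) ∨ (e.1 + 2 ∉ X ∧ wv n e ∈ X)).card := by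
  rw [cut_map, countP_prs, slots, Finset.filter_filter]
  simp only [decide_eq_true_eq]

theorem blue_three (n : ℕ) (E : List (ℕ × ℕ)) (X : Finset ℕ) (h1 : 1 ∉ X) :
    (cutEdges X ((prs n (2 * n) (sl n E)).map (fun e => (1, wv n e)))).length =
    ((slots n E).filter fun e => wv n e ∈ X).card := by
  rw [cut_map, countP_prs, slots, Finset.filter_filter]
  simp [h1]

/-- the vertices of the given graph in the cut -/
def tr (n : ℕ) (X : Finset ℕ) : Finset ℕ := (Finset.range n).filter fun u => u + 2 ∈ X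

theorem mem_tr {n : ℕ} {X : Finset ℕ} {u : ℕ} : u ∈ tr n X ↔ u < n ∧ u + 2 ∈ X := by
  simp [tr]

theorem red_count (n : ℕ) (X : Finset ℕ) (h0 : 0 ∈ X) :
    (cutEdges X (redE n)).length + (tr n X).card = n := by
  have h : (cutEdges X (redE n)).length =
      ((Finset.range n).filter fun u => ¬ u + 2 ∈ X).card := by
    rw [cutEdges, redE, ← List.countP_eq_length_filter, List.countP_map,
      List.countP_eq_length_filter, ← List.toFinset_card_of_nodup (List.nodup_range.filter _)]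
    congr 1
    ext u
    simp [h0]
  rw [h, tr, Nat.add_comm, Finset.card_filter_add_card_filter_not, Finset.card_range]

/-- the slots of the vertices in the cut -/
theorem slot_count (n : ℕ) (E : List (ℕ × ℕ)) (X : Finset ℕ) :
    ((slots n E).filter fun e => e.1 + 2 ∈ X).card +
      ((arc n E).filter fun e => e.1 + 2 ∈ X ∧ e.2 + 2 ∉ X).card +
      ((arc n E).filter fun e => e.1 + 2 ∈ X ∧ e.2 + 2 ∈ X).card = (tr n X).card * (2 * n) := by
  have e1 : ((arc n E).filter fun e => e.1 + 2 ∈ X ∧ e.2 + 2 ∈ X).card +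
      ((arc n E).filter fun e => e.1 + 2 ∈ X ∧ e.2 + 2 ∉ X).card =
      ((arc n E).filter fun e => e.1 + 2 ∈ X).card := by
    rw [← Finset.filter_filter, ← Finset.filter_filter, Finset.card_filter_add_card_filter_not]
  have e2 : (tr n X ×ˢ Finset.range (2 * n)) = ((slots n E).filter fun e => e.1 + 2 ∈ X) ∪
      ((arc n E).filter fun e => e.1 + 2 ∈ X) := by
    ext ⟨u, i⟩
    simp only [Finset.mem_product, Finset.mem_union, Finset.mem_filter, mem_slots, mem_arc, mem_tr,
      Finset.mem_range]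
    constructor
    · rintro ⟨⟨h1, h2⟩, h3⟩
      by_cases h : i < n ∧ ad E u i = true
      · exact Or.inr ⟨⟨h1, h.1, h.2⟩, h2⟩
      · exact Or.inl ⟨⟨h1, h3, h⟩, h2⟩
    · rintro (⟨⟨h1, h2, h3⟩, h4⟩ | ⟨⟨h1, h2, h3⟩, h4⟩)
      · exact ⟨⟨h1, h4⟩, h2⟩
      · exact ⟨⟨h1, h4⟩, by omega⟩
  have e3 : Disjoint ((slots n E).filter fun e => e.1 + 2 ∈ X)
      ((arc n E).filter fun e => e.1 + 2 ∈ X) := by
    rw [Finset.disjoint_left]
    rintro e h1 h2
    exact (mem_slots.1 (Finset.mem_filter.1 h1).1).2.2 ⟨(mem_arc.1 (Finset.mem_filter.1 h2).1).2.1,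
      (mem_arc.1 (Finset.mem_filter.1 h2).1).2.2⟩
  have e4 := congrArg Finset.card e2
  rw [Finset.card_product, Finset.card_range, Finset.card_union_of_disjoint e3] at e4
  omega

theorem inner_le (n : ℕ) (E : List (ℕ × ℕ)) (X : Finset ℕ) :
    ((arc n E).filter fun e => e.1 + 2 ∈ X ∧ e.2 + 2 ∈ X) ⊆ (tr n X).offDiag := by
  rintro ⟨u, i⟩ h
  simp only [Finset.mem_filter, mem_arc] at h
  rw [Finset.mem_offDiag]
  exact ⟨mem_tr.2 ⟨h.1.1, h.2.1⟩, mem_tr.2 ⟨h.1.2.1, h.2.2⟩, (ad_iff.1 h.1.2.2).1⟩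

theorem correct {n k : ℕ} (E : List (ℕ × ℕ)) (hk : k ≤ n) :
    HasCut (red (n, E, k)) ↔ ∃ S, IndepN n E S ∧ S.card = k := by
  have hred : ∀ X : Finset ℕ, (cutEdges X (red (n, E, k)).red).length =
      (cutEdges X (redE n)).length := fun X => rfl
  have hblue : ∀ X : Finset ℕ, 1 ∉ X → (cutEdges X (red (n, E, k)).blue).length =
      ((arc n E).filter fun e => e.1 + 2 ∈ X ∧ e.2 + 2 ∉ X).card +
      (((slots n E).filter fun e =>
        (e.1 + 2 ∈ X ∧ wv n e ∉ X) ∨ (e.1 + 2 ∉ X ∧ wv n e ∈ X)).card +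
      ((slots n E).filter fun e => wv n e ∈ X).card) := by
    intro X h1
    change (cutEdges X (blueE n E)).length = _
    rw [blueE, cut_append, cut_append, blue_one, blue_two, blue_three n E X h1]
  constructor
  · rintro ⟨X, -, h0, h1, hr, hb⟩
    change 0 ∈ X at h0
    change 1 ∉ X at h1
    rw [hred] at hr
    rw [hblue X h1] at hb
    change _ ≤ n - k at hr
    change _ ≤ k * (2 * n + 1 - k) at hb
    have c1 := red_count n X h0
    have c2 := slot_count n E X
    have c3 : ((slots n E).filter fun e => e.1 + 2 ∈ X).card ≤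
        ((slots n E).filter fun e =>
          (e.1 + 2 ∈ X ∧ wv n e ∉ X) ∨ (e.1 + 2 ∉ X ∧ wv n e ∈ X)).card +
        ((slots n E).filter fun e => wv n e ∈ X).card := by
      refine (Finset.card_le_card ?_).trans (Finset.card_union_le _ _)
      intro e he
      simp only [Finset.mem_union, Finset.mem_filter] at he ⊢
      tauto
    have c4 := Finset.card_le_card (inner_le n E X)
    rw [Finset.offDiag_card] at c4
    set s := (tr n X).card with hs
    have hsk : k ≤ s := by omega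
    have hsn : s ≤ n := by omega
    -- the slack
    obtain ⟨d, hd⟩ := Nat.exists_eq_add_of_le hsk
    obtain ⟨m, hm⟩ := Nat.exists_eq_add_of_le hsn
    set a := ((arc n E).filter fun e => e.1 + 2 ∈ X ∧ e.2 + 2 ∈ X).card with ha
    have c5 : s * (2 * n) ≤ k * (2 * n + 1 - k) + a := by omega
    have c6 : a + s ≤ s * s := by
      have : s ≤ s * s := Nat.le_mul_self s
      omega
    have hd0 : d = 0 := by
      by_contra hd0
      have hd1 : 1 ≤ d := by omega
      have e1 : 2 * n + 1 - k = 2 * (k + d + m) + 1 - k := by rw [hm, hd]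
      have e2 : 2 * (k + d + m) + 1 - k = k + 2 * d + 2 * m + 1 := by omega
      rw [e1, e2] at c5
      rw [hm, hd] at c5
      rw [hd] at c6
      nlinarith [mul_pos (show 0 < d by omega) (show 0 < d by omega), Nat.zero_le (d * m),
        Nat.zero_le (k * d)]
    have hsk' : s = k := by omega
    have hak : (tr n X).offDiag.card ≤ a := by
      rw [Finset.offDiag_card, ← hs, hsk']
      rw [hsk'] at c5
      have e1 : 2 * n + 1 - k = 2 * (k + m) + 1 - k := by rw [hm, hsk']
      have e2 : 2 * (k + m) + 1 - k = k + 2 * m + 1 := by omega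
      rw [e1, e2, hm, hsk'] at c5
      have : k * k ≤ a + k := by nlinarith
      omega
    have heq := Finset.eq_of_subset_of_card_le (inner_le n E X) hak
    refine ⟨tr n X, ⟨fun v hv => (mem_tr.1 hv).1, fun u hu v hv huv => ?_⟩, hsk'⟩
    have : (u, v) ∈ (tr n X).offDiag := Finset.mem_offDiag.2 ⟨hu, hv, huv⟩
    rw [← heq] at this
    exact (ad_iff.1 (mem_arc.1 (Finset.mem_filter.1 this).1).2.2).2.1
  · rintro ⟨S, ⟨hS1, hS2⟩, hSk⟩
    let X : Finset ℕ := insert 0 (S.image fun u => u + 2)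
    have hX2 : ∀ u, u + 2 ∈ X ↔ u ∈ S := by
      intro u
      simp [X]
    have h1 : 1 ∉ X := by simp [X]
    have h0 : 0 ∈ X := by simp [X]
    have hw : ∀ e : ℕ × ℕ, wv n e ∉ X := by
      intro e h
      have : wv n e = (n + (e.1 * (2 * n) + e.2)) + 2 := by simp only [wv]; omega
      rw [this, hX2] at h
      have := hS1 _ h
      omega
    have htr : tr n X = S := by
      ext u
      rw [mem_tr, hX2]
      exact ⟨fun h => h.2, fun h => ⟨hS1 u h, h⟩⟩
    have c1 := red_count n X h0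
    have c2 := slot_count n E X
    rw [htr, hSk] at c1 c2
    refine ⟨X, ?_, h0, h1, ?_, ?_⟩
    · intro v hv
      rw [Finset.mem_range]
      change v < n + 2 + n * (2 * n)
      simp only [X, Finset.mem_insert, Finset.mem_image] at hv
      rcases hv with rfl | ⟨u, hu, rfl⟩
      · omega
      · have := hS1 u hu
        omega
    · rw [hred]
      change _ ≤ n - k
      omega
    · rw [hblue X h1]
      change _ ≤ k * (2 * n + 1 - k)
      have c3 : ((slots n E).filter fun e => wv n e ∈ X).card = 0 := by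
        rw [Finset.card_eq_zero, Finset.filter_eq_empty_iff]
        exact fun e _ => hw e
      have c4 : ((slots n E).filter fun e =>
          (e.1 + 2 ∈ X ∧ wv n e ∉ X) ∨ (e.1 + 2 ∉ X ∧ wv n e ∈ X)).card =
          ((slots n E).filter fun e => e.1 + 2 ∈ X).card := by
        congr 1
        refine Finset.filter_congr fun e _ => ?_
        have := hw e
        tauto
      have c5 : ((arc n E).filter fun e => e.1 + 2 ∈ X ∧ e.2 + 2 ∈ X).card = k * k - k := by
        rw [← hSk, ← Finset.offDiag_card]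
        congr 1
        refine Finset.Subset.antisymm ((inner_le n E X).trans (by rw [htr])) ?_
        rintro ⟨u, v⟩ h
        rw [Finset.mem_offDiag] at h
        simp only [Finset.mem_filter, mem_arc, hX2]
        exact ⟨⟨hS1 _ h.1, hS1 _ h.2.1, ad_iff.2 ⟨h.2.2, hS2 _ h.1 _ h.2.1 h.2.2,
          hS2 _ h.2.1 _ h.1 h.2.2.symm⟩⟩, h.1, h.2.1⟩
      rw [c3, c4]
      rw [c5] at c2
      obtain ⟨m, hm⟩ := Nat.exists_eq_add_of_le hk
      have e2 : 2 * (k + m) + 1 - k = k + 2 * m + 1 := by omega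
      rw [hm, e2]
      rw [hm] at c2
      have : k ≤ k * k := Nat.le_mul_self k
      have e3 : k * (k + 2 * m + 1) + (k * k - k) = k * (2 * (k + m)) := by
        have : k * (k + 2 * m + 1) + (k * k - k) + k = k * (2 * (k + m)) + k := by
          rw [Nat.add_assoc, Nat.sub_add_cancel this]; ring
        omega
      rw [hm] at c4 c3
      omega

/-- The undirected red-blue s-t cut problem is NP-hard on simple graphs. -/
theorem nph : NPH (fun I : Inst => IsSimple I) HasCut := by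
  refine indep_nph.reduce red pt_red fun p hp => ⟨simple_red p, ?_⟩
  obtain ⟨n, E, k⟩ := p
  exact (correct E (by have := hp.1; dsimp only at this; omega)).symm

end Pool.Agent.Run7.h465.ST
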