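import Pool.Agent.Run7.h465.ST.Defs

/-!
Membership in NP of the undirected red-blue s-t cut problem.
-/

namespace Pool.Agent.Run7.h465.ST

open Pool.Agent.H38.NP

/-- the tuple of the components -/
abbrev Tup := ℕ × ℕ × ℕ × List (ℕ × ℕ) × List (ℕ × ℕ) × ℕ × ℕ

/-- an instance as a tuple -/
def Inst.tup (I : Inst) : Tup := (I.n, I.s, I.t, I.red, I.blue, I.r, I.b)

/-- a tuple as an instance -/
def ofTup (p : Tup) : Inst := ⟨p.1, p.2.1, p.2.2.1, p.2.2.2.1, p.2.2.2.2.1, p.2.2.2.2.2.1,
  p.2.2.2.2.2.2⟩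

theorem ofTup_tup (I : Inst) : ofTup I.tup = I := rfl

@[fun_prop] theorem PT.tup {α : Type} [Enc α] {f : α → Inst} (hf : PT f) :
    PT fun a => (f a).tup := PT.recast' hf fun _ => rfl

@[fun_prop] theorem PT.ofTup {α : Type} [Enc α] {f : α → Tup} (hf : PT f) :
    PT fun a => ofTup (f a) := PT.recast' hf fun _ => rfl

instance : Dec Inst := ⟨fun x => ofTup (dec x), by fun_prop, fun I => by
  have : raw I = raw I.tup := rfl
  rw [this, Dec.dec_raw]; rfl⟩

@[fun_prop] theorem PT.n {α : Type} [Enc α] {f : α → Inst} (hf : PT f) : PT fun a => (f a).n :=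
  (PT.tup hf).fst
@[fun_prop] theorem PT.s {α : Type} [Enc α] {f : α → Inst} (hf : PT f) : PT fun a => (f a).s :=
  (PT.tup hf).snd.fst
@[fun_prop] theorem PT.t {α : Type} [Enc α] {f : α → Inst} (hf : PT f) : PT fun a => (f a).t :=
  (PT.tup hf).snd.snd.fst
@[fun_prop] theorem PT.red {α : Type} [Enc α] {f : α → Inst} (hf : PT f) :
    PT fun a => (f a).red := (PT.tup hf).snd.snd.snd.fst
@[fun_prop] theorem PT.blue {α : Type} [Enc α] {f : α → Inst} (hf : PT f) :
    PT fun a => (f a).blue := (PT.tup hf).snd.snd.snd.snd.fst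
@[fun_prop] theorem PT.r {α : Type} [Enc α] {f : α → Inst} (hf : PT f) : PT fun a => (f a).r :=
  (PT.tup hf).snd.snd.snd.snd.snd.fst
@[fun_prop] theorem PT.b {α : Type} [Enc α] {f : α → Inst} (hf : PT f) : PT fun a => (f a).b :=
  (PT.tup hf).snd.snd.snd.snd.snd.snd

/-- does the edge `e` cross the set of the members of `w` below `n`? -/
def crs (n : ℕ) (w : List ℕ) (e : ℕ × ℕ) : Bool :=
  xor (decide (e.1 ∈ w) && decide (e.1 < n)) (decide (e.2 ∈ w) && decide (e.2 < n))

/-- the verifier: the certificate is the list of the elements of the set -/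
def ver (I : Inst) (w : List ℕ) : Bool :=
  (decide (I.s ∈ w) && decide (I.s < I.n)) &&
  (!(decide (I.t ∈ w) && decide (I.t < I.n)) &&
  (decide (I.red.countP (fun e => crs I.n w e) ≤ I.r) &&
  decide (I.blue.countP (fun e => crs I.n w e) ≤ I.b)))

theorem pt_ver : PT fun p : Inst × List ℕ => ver p.1 p.2 := by
  unfold ver crs
  fun_prop

theorem ver_iff (I : Inst) (w : List ℕ) : ver I w = true ↔
    I.s ∈ w.toFinset ∩ Finset.range I.n ∧ I.t ∉ w.toFinset ∩ Finset.range I.n ∧
    (cutEdges (w.toFinset ∩ Finset.range I.n) I.red).length ≤ I.r ∧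
    (cutEdges (w.toFinset ∩ Finset.range I.n) I.blue).length ≤ I.b := by
  have h : ∀ A : List (ℕ × ℕ), (cutEdges (w.toFinset ∩ Finset.range I.n) A).length =
      A.countP (fun e => crs I.n w e) := by
    intro A
    rw [cutEdges, List.countP_eq_length_filter]
    congr 2
    funext e
    rw [Bool.eq_iff_iff]
    simp only [crs, decide_eq_true_eq, Finset.mem_inter, List.mem_toFinset, Finset.mem_range,
      bne_iff_ne, ne_eq, Bool.xor]
    by_cases h1 : e.1 ∈ w ∧ e.1 < I.n <;> by_cases h2 : e.2 ∈ w ∧ e.2 < I.n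
    all_goals
      rw [← Bool.decide_and, ← Bool.decide_and]
      simp [h1, h2]
  rw [h, h]
  unfold ver
  simp only [Bool.and_eq_true, decide_eq_true_eq, Bool.not_eq_true', Finset.mem_inter,
    List.mem_toFinset, Finset.mem_range, ← Bool.decide_and, decide_eq_false_iff_not]

theorem sz_nodup_le (n : ℕ) : ∀ w : List ℕ, w.length ≤ n → (∀ v ∈ w, v < n) →
    sz w ≤ n * (2 * n + 1) := by
  intro w h1 h2
  refine (sz_le_of_forall (B := n) fun v hv => ?_).trans (Nat.mul_le_mul_right _ h1)
  rw [sz_nat]; exact (h2 v hv).le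

theorem inNP_of {C : Inst → Prop} (c : Inst → Bool) (hc : PT c) (h : ∀ I, C I ↔ c I = true) :
    InNP (lang fun I : Inst => C I ∧ HasCut I) := by
  refine inNP_lang (β := List ℕ) (fun I w => c I && ver I w)
    (PT.and (hc.comp (g := fun p : Inst × List ℕ => p.1) (by fun_prop)) pt_ver)
    (B := fun I => I.n * (2 * I.n + 1)) ?_ ?_ ?_
  · have h1 : PB fun I : Inst => I.n := PT.nat_pb (by fun_prop)
    exact h1.mul (((PB.const 2).mul h1).add (PB.const 1))
  · rintro I ⟨hI, X, hX, h1, h2, h3, h4⟩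
    refine ⟨X.toList, ?_, ?_⟩
    · refine sz_nodup_le I.n _ ?_ fun v hv => ?_
      · rw [Finset.length_toList]
        simpa using Finset.card_le_card hX
      · exact Finset.mem_range.1 (hX (Finset.mem_toList.1 hv))
    · rw [Bool.and_eq_true, ver_iff]
      have e : X.toList.toFinset ∩ Finset.range I.n = X := by
        rw [Finset.toList_toFinset]
        exact Finset.inter_eq_left.2 hX
      rw [e]
      exact ⟨(h I).1 hI, h1, h2, h3, h4⟩
  · intro I w hw
    rw [Bool.and_eq_true, ver_iff] at hw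
    exact ⟨(h I).2 hw.1, w.toFinset ∩ Finset.range I.n, Finset.inter_subset_right, hw.2⟩

/-- the test for `IsGraph` -/
def tstG (I : Inst) : Bool :=
  (decide (I.s < I.n) && (decide (I.t < I.n) && decide (I.s ≠ I.t))) &&
  (I.red ++ I.blue).all fun e => decide (e.1 < I.n) && decide (e.2 < I.n)

theorem tstG_iff (I : Inst) : IsGraph I ↔ tstG I = true := by
  simp only [IsGraph, tstG, List.all_eq_true, Bool.and_eq_true, decide_eq_true_eq]

theorem inNP_graph : InNP (lang fun I : Inst => IsGraph I ∧ HasCut I) :=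
  inNP_of tstG (by unfold tstG; fun_prop) tstG_iff

theorem nodup_sym2 (l : List (ℕ × ℕ)) : (l.map fun e => s(e.1, e.2)).Nodup ↔
    (l.map fun e => (min e.1 e.2, max e.1 e.2)).Nodup := by
  have e : ∀ a b : ℕ × ℕ, s(a.1, a.2) = s(b.1, b.2) ↔
      (min a.1 a.2, max a.1 a.2) = (min b.1 b.2, max b.1 b.2) := by
    rintro ⟨a, a'⟩ ⟨b, b'⟩
    simp only [Sym2.eq_iff, Prod.mk.injEq]
    omega
  induction l with
  | nil => simp
  | cons a l ih =>
    simp only [List.map_cons, List.nodup_cons, ih, List.mem_map]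
    refine and_congr_left fun _ => not_congr (exists_congr fun b => and_congr_right fun _ => e b a)

/-- the test for `IsSimple` -/
def tstS (I : Inst) : Bool :=
  tstG I && (((I.red ++ I.blue).all fun e => decide (e.1 ≠ e.2)) &&
    decide ((I.red ++ I.blue).map fun e => (min e.1 e.2, max e.1 e.2)).Nodup)

theorem tstS_iff (I : Inst) : IsSimple I ↔ tstS I = true := by
  simp only [IsSimple, tstS, List.all_eq_true, Bool.and_eq_true, decide_eq_true_eq, tstG_iff,
    nodup_sym2]

theorem inNP_simple : InNP (lang fun I : Inst => IsSimple I ∧ HasCut I) :=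
  inNP_of tstS (by unfold tstS tstG; fun_prop) tstS_iff

end Pool.Agent.Run7.h465.ST
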